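import Pool.Agent.H852R2.EX.Defs

/-! Task 01 (helper153): the switching lemma. -/

namespace RC852
open RC14 Finset

namespace SWITCH

/-- number of conflict-free sequences -/
theorem conflict {α : Type*} [Fintype α] [DecidableEq α] (B : Finset α) (R : α → Finset α)
    (D K : ℕ) (hR : ∀ p ∈ B, (R p).card ≤ D) (f : ℕ) (h : f * D + K ≤ B.card) :
    K ^ f ≤ #{s : Fin f → α | (∀ i, s i ∈ B) ∧ ∀ i j, i < j → s j ∉ R (s i)} := by
  induction f with
  | zero =>
    rw [pow_zero, Nat.one_le_iff_ne_zero, Finset.card_ne_zero]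
    refine ⟨Fin.elim0, ?_⟩
    rw [Finset.mem_filter]
    exact ⟨Finset.mem_univ _, fun i => i.elim0, fun i => i.elim0⟩
  | succ f ih =>
    have hfD : f * D + K ≤ B.card := by
      have : (f + 1) * D = f * D + D := by ring
      omega
    have ih' := ih hfD
    set G := Finset.univ.filter (fun s : Fin f → α => (∀ i, s i ∈ B) ∧
      ∀ i j, i < j → s j ∉ R (s i)) with hG
    let T : (s : Fin f → α) → Finset α := fun s => B \ (Finset.univ.biUnion fun i => R (s i))
    have hT : ∀ s ∈ G, K ≤ (T s).card := by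
      intro s hs
      rw [hG, Finset.mem_filter] at hs
      have h1 : (Finset.univ.biUnion fun i => R (s i)).card ≤ f * D := by
        refine Finset.card_biUnion_le.trans ?_
        calc ∑ i : Fin f, (R (s i)).card ≤ ∑ _i : Fin f, D :=
              Finset.sum_le_sum fun i _ => hR _ (hs.2.1 i)
          _ = f * D := by simp
      have h2 := Finset.le_card_sdiff (Finset.univ.biUnion fun i => R (s i)) B
      show K ≤ (B \ (Finset.univ.biUnion fun i => R (s i))).card
      have : (f + 1) * D = f * D + D := by ring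
      omega
    have h1 : G.card * K ≤ (G.sigma T).card := by
      rw [Finset.card_sigma, ← smul_eq_mul, ← Finset.sum_const]
      exact Finset.sum_le_sum hT
    have h2 : (G.sigma T).card ≤ #{s : Fin (f + 1) → α | (∀ i, s i ∈ B) ∧
        ∀ i j, i < j → s j ∉ R (s i)} := by
      apply Finset.card_le_card_of_injOn
        (fun z : (Σ _ : Fin f → α, α) => (Fin.snoc (α := fun _ => α) z.1 z.2 : Fin (f + 1) → α))
      · rintro ⟨s, x⟩ hz
        rw [Finset.mem_coe, Finset.mem_sigma, hG, Finset.mem_filter] at hz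
        obtain ⟨⟨-, hs1, hs2⟩, hx⟩ := hz
        have hx' : x ∈ B ∧ ∀ i, x ∉ R (s i) := by
          have : x ∈ B \ (Finset.univ.biUnion fun i => R (s i)) := hx
          rw [Finset.mem_sdiff, Finset.mem_biUnion] at this
          refine ⟨this.1, fun i hi => this.2 ⟨i, Finset.mem_univ _, hi⟩⟩
        simp only [Finset.coe_filter, Finset.mem_univ, true_and, Set.mem_ofPred_eq]
        constructor
        · intro i
          refine Fin.lastCases ?_ (fun i => ?_) i
          · rw [Fin.snoc_last]; exact hx'.1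
          · rw [Fin.snoc_castSucc]; exact hs1 i
        · intro i j
          refine Fin.lastCases (fun hij => ?_) (fun j hij => ?_) j
          · rw [Fin.snoc_last]
            obtain ⟨i', rfl⟩ := Fin.exists_castSucc_eq.2 (ne_of_lt hij)
            rw [Fin.snoc_castSucc]
            exact hx'.2 i'
          · rw [Fin.snoc_castSucc]
            obtain ⟨i', rfl⟩ := Fin.exists_castSucc_eq.2
              (ne_of_lt (hij.trans (Fin.castSucc_lt_last j)))
            rw [Fin.snoc_castSucc]
            exact hs2 i' j (Fin.castSucc_lt_castSucc_iff.1 hij)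
      · rintro ⟨s, x⟩ _ ⟨s', x'⟩ _ heq
        simp only at heq
        have e1 : x = x' := by
          have := congrFun heq (Fin.last f)
          rwa [Fin.snoc_last, Fin.snoc_last] at this
        have e2 : s = s' := by
          funext i
          have := congrFun heq i.castSucc
          rwa [Fin.snoc_castSucc, Fin.snoc_castSucc] at this
        rw [e1, e2]
    calc K ^ (f + 1) = K ^ f * K := pow_succ K f
      _ ≤ G.card * K := Nat.mul_le_mul_right _ ih'
      _ ≤ _ := h1.trans h2

/-- half of the points are not queried often -/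
theorem half {α : Type*} [Fintype α] [DecidableEq α] (B : Finset α) (Q : α → Finset α) (l : ℕ)
    (hQ : ∀ p, (Q p).card ≤ l) :
    B.card ≤ 2 * (B.filter (fun p => (B.filter (fun p' => p ∈ Q p')).card ≤ 2 * l)).card := by
  set cnt : α → ℕ := fun p => (B.filter (fun p' => p ∈ Q p')).card with hcnt
  have h1 : ∑ p ∈ B, cnt p ≤ l * B.card := by
    have h2 : ∑ p ∈ B, cnt p = ∑ p' ∈ B, (B.filter (fun p => p ∈ Q p')).card := by
      have := Finset.sum_card_bipartiteAbove_eq_sum_card_bipartiteBelow (s := B) (t := B)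
        (r := fun p p' => p ∈ Q p')
      simpa [Finset.bipartiteAbove, Finset.bipartiteBelow, hcnt] using this
    rw [h2]
    calc ∑ p' ∈ B, (B.filter (fun p => p ∈ Q p')).card ≤ ∑ _p' ∈ B, l := by
          apply Finset.sum_le_sum
          intro p' _
          refine le_trans (Finset.card_le_card ?_) (hQ p')
          intro p hp
          exact (Finset.mem_filter.1 hp).2
      _ = l * B.card := by rw [Finset.sum_const, smul_eq_mul, mul_comm]
  set good := B.filter (fun p => cnt p ≤ 2 * l) with hgood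
  set bad := B.filter (fun p => ¬ cnt p ≤ 2 * l) with hbad
  have h3 : good.card + bad.card = B.card :=
    Finset.card_filter_add_card_filter_not (s := B) (fun p => cnt p ≤ 2 * l)
  have h4 : (2 * l + 1) * bad.card ≤ ∑ p ∈ B, cnt p := by
    calc (2 * l + 1) * bad.card = ∑ _p ∈ bad, (2 * l + 1) := by
          rw [Finset.sum_const, smul_eq_mul, mul_comm]
      _ ≤ ∑ p ∈ bad, cnt p := by
          apply Finset.sum_le_sum
          intro p hp
          have := (Finset.mem_filter.1 hp).2
          omega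
      _ ≤ ∑ p ∈ B, cnt p := Finset.sum_le_sum_of_subset (Finset.filter_subset _ _)
  have h5 : 2 * bad.card ≤ B.card := by
    by_contra hcon
    push Not at hcon
    have h6 := h4.trans h1
    nlinarith
  show B.card ≤ 2 * good.card
  omega

section

variable {n : ℕ} (W : Equiv.Perm (Fin n) → Equiv.Perm (Fin n))
  (Q : Equiv.Perm (Fin n) → Fin n → Finset (Fin n))

/-- the good points -/
def Bs (b : Equiv.Perm (Fin n)) : Finset (Fin n) := {p : Fin n | b p = W b p ∧ p ∉ Q b p}

/-- the good sequences -/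
def Sq (f : ℕ) (b : Equiv.Perm (Fin n)) : Finset (Fin f → Fin n) :=
  {s : Fin f → Fin n | (∀ i, s i ∈ Bs W Q b) ∧ Function.Injective s ∧ ∀ i j, s i ∉ Q b (s j)}

theorem card_Sq (f l K F : ℕ) (hQ : ∀ b p, (Q b p).card ≤ l)
    (hF : 2 * (f * (3 * l + 1) + K) ≤ F) (b : Equiv.Perm (Fin n)) (hb : F ≤ (Bs W Q b).card) :
    K ^ f ≤ (Sq W Q f b).card := by
  set B := Bs W Q b with hB
  set B' := B.filter (fun p => (B.filter (fun p' => p ∈ Q b p')).card ≤ 2 * l) with hB'
  have h1 := half B (Q b) l (hQ b)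
  rw [← hB'] at h1
  let R : Fin n → Finset (Fin n) := fun p => insert p (Q b p ∪ B.filter (fun p' => p ∈ Q b p'))
  have hR : ∀ p ∈ B', (R p).card ≤ 3 * l + 1 := by
    intro p hp
    have h2 := (Finset.mem_filter.1 hp).2
    refine (Finset.card_insert_le _ _).trans ?_
    have h3 := Finset.card_union_le (Q b p) (B.filter (fun p' => p ∈ Q b p'))
    have h4 := hQ b p
    omega
  refine (conflict B' R (3 * l + 1) K hR f (by omega)).trans (Finset.card_le_card ?_)
  intro s hs
  rw [Finset.mem_filter] at hs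
  obtain ⟨-, hs1, hs2⟩ := hs
  have hs1' : ∀ i, s i ∈ B := fun i => (Finset.mem_filter.1 (hs1 i)).1
  have key : ∀ i j, i < j → s j ≠ s i ∧ s j ∉ Q b (s i) ∧ s i ∉ Q b (s j) := by
    intro i j hij
    have h2 := hs2 i j hij
    simp only [R, Finset.mem_insert, Finset.mem_union, Finset.mem_filter, not_or, not_and] at h2
    exact ⟨h2.1, h2.2.1, h2.2.2 (hs1' j)⟩
  unfold Sq
  rw [Finset.mem_filter]
  refine ⟨Finset.mem_univ _, hs1', ?_, ?_⟩
  · intro i j hij
    rcases lt_trichotomy i j with h | h | h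
    · exact absurd hij.symm (key i j h).1
    · exact h
    · exact absurd hij (key j i h).1
  · intro i j
    rcases lt_trichotomy i j with h | h | h
    · exact (key i j h).2.2
    · subst h
      have := hs1' i
      rw [hB] at this
      unfold Bs at this
      exact (Finset.mem_filter.1 this).2.2
    · exact (key j i h).2.1

/-- the cycle along the sequence -/
noncomputable def cy {f : ℕ} (s : Fin f ↪ Fin n) : Equiv.Perm (Fin n) :=
  (finRotate f).viaFintypeEmbedding s

theorem cy_apply {f : ℕ} (s : Fin f ↪ Fin n) (i : Fin f) : cy s (s i) = s (finRotate f i) :=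
  Equiv.Perm.viaFintypeEmbedding_apply_image _ _ _

theorem cy_not {f : ℕ} (s : Fin f ↪ Fin n) {a : Fin n} (h : ∀ i, s i ≠ a) : cy s a = a := by
  apply Equiv.Perm.viaFintypeEmbedding_apply_notMem_range
  rintro ⟨i, hi⟩
  exact h i hi

theorem cy_sign {m : ℕ} (s : Fin (2 * m + 1) ↪ Fin n) : Equiv.Perm.sign (cy s) = 1 := by
  unfold cy
  rw [Equiv.Perm.viaFintypeEmbedding_sign, sign_finRotate]
  simp

variable (hloc : ∀ b b' p, (∀ a ∈ Q b p, b' a = b a) → W b' p = W b p)
include hloc

theorem step {f : ℕ} {b : Equiv.Perm (Fin n)} {s : Fin f → Fin n} (hs : s ∈ Sq W Q f b)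
    (hinj : Function.Injective s) (i : Fin f) :
    (b * cy ⟨s, hinj⟩) (s i) = W (b * cy ⟨s, hinj⟩) (s (finRotate f i)) := by
  unfold Sq at hs
  rw [Finset.mem_filter] at hs
  obtain ⟨-, h1, -, h3⟩ := hs
  have h4 := h1 (finRotate f i)
  unfold Bs at h4
  have h5 := (Finset.mem_filter.1 h4).2.1
  have h6 : cy ⟨s, hinj⟩ (s i) = s (finRotate f i) := cy_apply ⟨s, hinj⟩ i
  rw [Equiv.Perm.mul_apply, h6, h5]
  symm
  apply hloc
  intro a ha
  rw [Equiv.Perm.mul_apply, cy_not]
  intro j hj
  have hj' : s j = a := hj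
  rw [← hj'] at ha
  exact h3 j _ ha

theorem inj {m : ℕ} {b b' : Equiv.Perm (Fin n)} {s s' : Fin (2 * m + 1) → Fin n}
    (hs : s ∈ Sq W Q (2 * m + 1) b) (hs' : s' ∈ Sq W Q (2 * m + 1) b')
    (hi : Function.Injective s) (hi' : Function.Injective s')
    (h : b * cy ⟨s, hi⟩ = b' * cy ⟨s', hi'⟩) (h0 : s 0 = s' 0) : b = b' ∧ s = s' := by
  have hss : ∀ k : ℕ, ∀ hk : k < 2 * m + 1, s ⟨k, hk⟩ = s' ⟨k, hk⟩ := by
    intro k
    induction k with
    | zero => intro _; exact h0
    | succ k ih =>
      intro hk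
      have hk' : k < 2 * m + 1 := by omega
      have e1 := step W Q hloc hs hi ⟨k, hk'⟩
      have e2 := step W Q hloc hs' hi' ⟨k, hk'⟩
      have hr : finRotate (2 * m + 1) ⟨k, hk'⟩ = ⟨k + 1, hk⟩ := by
        rw [finRotate_of_lt]
        omega
      rw [hr] at e1 e2
      rw [h, ih hk'] at e1
      exact (W _).injective (e1.symm.trans e2)
  have hs_eq : s = s' := by
    funext i
    exact hss i.1 i.2
  subst hs_eq
  exact ⟨mul_right_cancel h, rfl⟩

end

end SWITCH

open SWITCH in
/-- SWITCHING LEMMA.  `W b` is a permutation depending on `b`; the value `W b p` depends only on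
the values of `b` at the points of `Q b p` (at most `l` points). -/
theorem SWITCH (n f l K F : ℕ) (hf : Odd f)
    (W : Equiv.Perm (Fin n) → Equiv.Perm (Fin n))
    (Q : Equiv.Perm (Fin n) → Fin n → Finset (Fin n)) (hQ : ∀ b p, (Q b p).card ≤ l)
    (hloc : ∀ b b' p, (∀ a ∈ Q b p, b' a = b a) → W b' p = W b p)
    (hF : 2 * (f * (3 * l + 1) + K) ≤ F) :
    Nat.card {b : Alt n // F ≤ #{p : Fin n | (b : Equiv.Perm (Fin n)) p = W b p ∧ p ∉ Q b p}} *
      K ^ f ≤ Fintype.card (Alt n) * n := by
  classical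
  obtain ⟨m, rfl⟩ := hf
  set 𝒢 := {b : Alt n // F ≤ #{p : Fin n | (b : Equiv.Perm (Fin n)) p = W b p ∧ p ∉ Q b p}}
    with h𝒢
  rw [Nat.card_eq_fintype_card]
  have h1 : Fintype.card 𝒢 * K ^ (2 * m + 1) ≤
      Fintype.card (Σ b : 𝒢, {s // s ∈ Sq W Q (2 * m + 1) (b.1 : Equiv.Perm (Fin n))}) := by
    rw [Fintype.card_sigma]
    calc Fintype.card 𝒢 * K ^ (2 * m + 1) = ∑ _b : 𝒢, K ^ (2 * m + 1) := by
          rw [Finset.sum_const, Finset.card_univ, smul_eq_mul]
      _ ≤ _ := by
          apply Finset.sum_le_sum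
          intro b _
          rw [Fintype.card_coe]
          exact card_Sq W Q (2 * m + 1) l K F hQ hF b.1 b.2
  have hinj : ∀ (b : Equiv.Perm (Fin n)) (s : Fin (2 * m + 1) → Fin n),
      s ∈ Sq W Q (2 * m + 1) b → Function.Injective s := by
    intro b s hs
    unfold Sq at hs
    exact (Finset.mem_filter.1 hs).2.2.1
  have h2 : Fintype.card (Σ b : 𝒢, {s // s ∈ Sq W Q (2 * m + 1) (b.1 : Equiv.Perm (Fin n))}) ≤
      Fintype.card (Alt n × Fin n) := by
    apply Fintype.card_le_of_injective (fun z =>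
      ((⟨(z.1.1 : Equiv.Perm (Fin n)) * cy ⟨z.2.1, hinj _ _ z.2.2⟩, by
        rw [Equiv.Perm.mem_alternatingGroup, Equiv.Perm.sign_mul, cy_sign, mul_one]
        exact Equiv.Perm.mem_alternatingGroup.1 z.1.1.2⟩ : Alt n), z.2.1 0))
    rintro ⟨⟨b, hb⟩, ⟨s, hs⟩⟩ ⟨⟨b', hb'⟩, ⟨s', hs'⟩⟩ heq
    simp only [Prod.mk.injEq, Subtype.mk.injEq] at heq
    obtain ⟨e1, e2⟩ := inj W Q hloc hs hs' (hinj _ _ hs) (hinj _ _ hs') heq.1 heq.2
    have e3 : b = b' := Subtype.ext e1
    subst e3
    subst e2
    rfl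
  rw [Fintype.card_prod, Fintype.card_fin] at h2
  exact h1.trans h2

end RC852
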